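import Pool.Agent.Helper64.BKA.Stmts
import Pool.Agent.Helper94.ZL.PZ
import Pool.Agent.Helper74.ZL.MON

/-! # SUM: summability over the places of a number field -/

set_option autoImplicit false

open NumberField

namespace BKA

theorem st_SUM : ST_SUM := by
  intro F _ _
  refine ⟨fun v => ?_, fun σ hσ => ?_⟩
  · exact Pool.Agent.Helper13.ZL.mon_q2 v
  · exact Pool.Agent.Helper13.ZL.pz_psum (k := F) hσ

end BKA
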