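import Pool.Agent.Helper64.BKA.Stmts

/-! # BND: bound for the induced character -/

set_option autoImplicit false

open scoped Classical

namespace BKA

lemma bnd_ext {G : Type} [Group G] [Fintype G] (H : Subgroup G) (χ : H →* ℂˣ) (y : G) :
    ‖ext H χ y‖ ≤ 1 := by
  unfold ext
  split_ifs with h
  · have h1 : ((χ ⟨y, h⟩ : ℂˣ) : ℂ) ^ Nat.card H = 1 := by
      rw [← Units.val_pow_eq_pow_val, ← map_pow, pow_card_eq_one', map_one, Units.val_one]
    have h2 : ‖((χ ⟨y, h⟩ : ℂˣ) : ℂ)‖ = 1 :=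
      Complex.norm_eq_one_of_pow_eq_one h1 (Nat.card_pos).ne'
    exact h2.le
  · simp

theorem st_BND : ST_BND := by
  intro G _ _ H χ g
  unfold ind
  have hH : (1 : ℝ) ≤ (Nat.card H : ℝ) := by exact_mod_cast Nat.card_pos (α := H)
  rw [norm_mul, norm_inv, Complex.norm_natCast]
  have h1 : ‖∑ x : G, ext H χ (x⁻¹ * g * x)‖ ≤ Nat.card G := by
    refine (norm_sum_le _ _).trans ?_
    refine (Finset.sum_le_sum fun x _ => bnd_ext H χ (x⁻¹ * g * x)).trans ?_
    simp [Nat.card_eq_fintype_card]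
  calc (Nat.card H : ℝ)⁻¹ * ‖∑ x : G, ext H χ (x⁻¹ * g * x)‖
      ≤ 1 * (Nat.card G : ℝ) := by
        refine mul_le_mul (inv_le_one_of_one_le₀ hH) h1 (norm_nonneg _) zero_le_one
    _ = _ := one_mul _

end BKA
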