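import Pool.Agent.Helper64.BKA.Stmts

/-! # FRO: Frobenius reciprocity -/

set_option autoImplicit false

open scoped Classical

namespace BKA

theorem st_FRO : ST_FRO := by
  intro G R _ _ _ _ H χ θ hθ
  have key : ∑ g : G, ind H χ g * θ g =
      (Nat.card H : R)⁻¹ * ((Nat.card G : R) * ∑ g : G, ext H χ g * θ g) := by
    have h1 : ∀ g : G, ind H χ g * θ g =
        (Nat.card H : R)⁻¹ * ∑ x : G, ext H χ (x⁻¹ * g * x) * θ g := by
      intro g
      unfold ind
      rw [mul_assoc, Finset.sum_mul]
    rw [Finset.sum_congr rfl fun g _ => h1 g, ← Finset.mul_sum, Finset.sum_comm]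
    congr 1
    have h2 : ∀ x : G, ∑ g : G, ext H χ (x⁻¹ * g * x) * θ g = ∑ g : G, ext H χ g * θ g := by
      intro x
      have : ∀ g : G, ext H χ (x⁻¹ * g * x) * θ g =
          (fun y => ext H χ y * θ y) ((MulAut.conj x⁻¹) g) := by
        intro g
        simp only [MulAut.conj_apply, inv_inv]
        rw [hθ]
      rw [Finset.sum_congr rfl fun g _ => this g]
      exact Equiv.sum_comp (MulAut.conj x⁻¹).toEquiv (fun y => ext H χ y * θ y)
    rw [Finset.sum_congr rfl fun x _ => h2 x, Finset.sum_const, Finset.card_univ, nsmul_eq_mul,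
      Nat.card_eq_fintype_card (α := G)]
  rw [key]
  have hG : (Nat.card G : R) ≠ 0 := by
    exact_mod_cast (Nat.card_pos (α := G)).ne'
  field_simp

end BKA
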