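import Pool.Agent.Helper64.BKA.Stmts

/-! # DSC: descent of the coefficient field -/

set_option autoImplicit false

open NumberField
open scoped Classical

namespace BKA

theorem st_DSC : ST_DSC := by
  intro E E' _ _ _ _ _ e x hx
  have : FiniteDimensional E E' := Module.Finite.of_restrictScalars_finite ℚ E E'
  have : Algebra.IsAlgebraic E E' := Algebra.IsAlgebraic.of_finite E E'
  have : CharZero E := inferInstance
  -- an embedding of `E`
  obtain ⟨ι₀⟩ : Nonempty (E' →+* ℂ) := inferInstance
  let _ : Algebra E ℂ := (ι₀.comp (algebraMap E E')).toAlgebra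
  -- all `E`-embeddings of `E'` agree on `e`
  have h1 : ∀ φ ψ : E' →ₐ[E] ℂ, φ e = ψ e := by
    intro φ ψ
    have a1 := hx φ.toRingHom
    have a2 := hx ψ.toRingHom
    have a3 : (φ.toRingHom.comp (algebraMap E E')) = (ψ.toRingHom.comp (algebraMap E E')) := by
      ext y
      simp
    rw [a3] at a1
    exact a1.trans a2.symm
  -- so `minpoly E e` has only one root
  have h2 : ∀ z ∈ (minpoly E e).rootSet ℂ, z = ι₀ e := by
    intro z hz
    have hz' : z ∈ (minpoly E e).aroots ℂ := by
      rw [Polynomial.mem_rootSet'] at hz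
      rw [Polynomial.mem_aroots']
      exact hz
    have hr := Algebra.IsAlgebraic.range_eval_eq_rootSet_minpoly (F := E) (K := E') ℂ e
    rw [← hr] at hz
    obtain ⟨φ, rfl⟩ := hz
    exact h1 φ (AlgHom.mk ι₀ (fun _ => rfl))
  have hsep : (minpoly E e).Separable := (minpoly.irreducible (Algebra.IsIntegral.isIntegral e)).separable
  have hcard : Fintype.card ((minpoly E e).rootSet ℂ) = (minpoly E e).natDegree := by
    apply Polynomial.card_rootSet_eq_natDegree hsep
    exact IsAlgClosed.splits _
  have hle : Fintype.card ((minpoly E e).rootSet ℂ) ≤ 1 := by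
    rw [Fintype.card_le_one_iff]
    intro a b
    exact Subtype.ext ((h2 a.1 a.2).trans (h2 b.1 b.2).symm)
  have hdeg : (minpoly E e).natDegree = 1 := by
    have hpos := minpoly.natDegree_pos (Algebra.IsIntegral.isIntegral (R := E) e)
    omega
  have : e ∈ (algebraMap E E').range := minpoly.mem_range_of_degree_eq_one E e (by
    have h := (Polynomial.degree_eq_iff_natDegree_eq_of_pos (p := minpoly E e) one_pos).2 hdeg
    simpa using h)
  exact this

end BKA
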